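import Pool.Agent.Helper50.Trs.Core

/-! # The transcendence engine on `G_a^p × G_m^q` -/

open MvPolynomial Filter Trs
open scoped Classical
open Pool.Agent.Helper37.PiE (Sz liouville_sz ev1 ev2 ev3)

namespace Pool.Agent.Helper50.TrsE

theorem exists_bound {ι : Type*} [Fintype ι] (f : ι → ℝ) : ∃ V : ℝ, 1 ≤ V ∧ ∀ i, f i ≤ V := by
  refine ⟨1 + ∑ i, |f i|, ?_, fun i => ?_⟩
  · have : 0 ≤ ∑ i, |f i| := Finset.sum_nonneg fun _ _ => abs_nonneg _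
    linarith
  · have := Finset.single_le_sum (f := fun i => |f i|) (fun _ _ => abs_nonneg _) (Finset.mem_univ i)
    have h2 := le_abs_self (f i)
    linarith

/-- a basis of a hyperplane -/
theorem exists_basis {n : ℕ} (φ : Fin n → ℂ) (hφ : φ ≠ 0) : ∃ v : Fin (n - 1) → Fin n → ℂ,
    ∀ z : Fin n → ℂ, ∑ i, φ i * z i = 0 → ∃ c : Fin (n - 1) → ℂ, z = ∑ j, c j • v j := by
  let f : (Fin n → ℂ) →ₗ[ℂ] ℂ := ∑ i, φ i • LinearMap.proj i
  have hf : ∀ z, f z = ∑ i, φ i * z i := fun z => by simp [f, LinearMap.sum_apply]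
  obtain ⟨i, hi⟩ := Function.ne_iff.1 hφ
  have hsurj : Function.Surjective f := by
    intro y
    refine ⟨(y / φ i) • Pi.single i 1, ?_⟩
    have hi' : φ i ≠ 0 := hi
    rw [map_smul, hf, Finset.sum_eq_single i]
    · simp
      field_simp
    · intro j _ hj
      simp [hj]
    · intro h; exact absurd (Finset.mem_univ i) h
  have h1 := LinearMap.finrank_range_add_finrank_ker f
  rw [LinearMap.range_eq_top.2 hsurj, finrank_top, Module.finrank_self, Module.finrank_fin_fun] at h1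
  have h2 : Module.finrank ℂ (LinearMap.ker f) = n - 1 := by omega
  let bs := Module.finBasisOfFinrankEq ℂ (LinearMap.ker f) h2
  refine ⟨fun j => (bs j : Fin n → ℂ), fun z hz => ?_⟩
  have hz' : z ∈ LinearMap.ker f := by rw [LinearMap.mem_ker, hf, hz]
  refine ⟨fun j => bs.repr ⟨z, hz'⟩ j, ?_⟩
  have h3 := congrArg Subtype.val (bs.sum_repr ⟨z, hz'⟩)
  refine Eq.trans h3.symm ?_
  push_cast
  rfl

theorem engine : S_Engine := by
  intro n m tor γ w1 w2 φ hφ hγφ hw1φ hw2φ halgγ halg1 halg2 u a d s t hau hdsu htu hcount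
  obtain ⟨v, hv⟩ := exists_basis φ hφ
  obtain ⟨k, hk⟩ : ∃ k, k = n - 1 := ⟨_, rfl⟩
  rw [← hk] at hcount
  have hn : 1 ≤ n := by
    obtain ⟨i, _⟩ := Function.ne_iff.1 hφ
    exact Nat.one_le_iff_ne_zero.2 fun h => by subst h; exact i.elim0
  choose c hc using fun b => hv (γ b) (hγφ b)
  -- the two directions
  set w : Fin 2 → Fin n → ℂ := ![w1, w2] with hw
  have hwφ : ∀ e, ∑ i, φ i * w e i = 0 := by
    intro e
    fin_cases e
    · exact hw1φ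
    · exact hw2φ
  choose b hb using fun e => hv (w e) (hwφ e)
  have hbw : (fun e => ∑ j, b e j • v j) = w := by
    funext e
    exact (hb e).symm
  have halg : ∀ i, IsAlgebraic ℚ (gen tor (fun e => ∑ j, b e j • v j) γ i) := by
    rw [hbw]
    rintro (⟨e, o⟩ | ⟨b, o⟩)
    · fin_cases e
      · exact halg1 o
      · exact halg2 o
    · exact halgγ b o
  obtain ⟨C, hC1, hC⟩ := liouville_sz (gen tor (fun e => ∑ j, b e j • v j) γ) halg
  obtain ⟨V1, hV11, hV1⟩ := exists_bound (fun q : Fin (n - 1) × Fin n => ‖v q.1 q.2‖)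
  obtain ⟨V2, hV21, hV2⟩ := exists_bound (fun q : Fin 2 × Fin n => ‖w q.1 q.2‖)
  obtain ⟨V, hV⟩ : ∃ V, V = max V1 V2 := ⟨_, rfl⟩
  have hVv : ∀ j o, ‖v j o‖ ≤ V := fun j o => by
    rw [hV]; exact (hV1 (j, o)).trans (le_max_left _ _)
  have hVw : ∀ e o, ‖(∑ j, b e j • v j) o‖ ≤ V := fun e o => by
    rw [← hb e, hV]; exact (hV2 (e, o)).trans (le_max_right _ _)
  have hVge : 1 ≤ V := by rw [hV]; exact hV11.trans (le_max_left _ _)
  obtain ⟨B, hB1, hB⟩ := exists_bound (fun e : Fin 2 => ∑ j, ‖b e j‖)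
  obtain ⟨C₁, hC₁0, hC₁⟩ : ∃ C₁ : ℝ, 0 ≤ C₁ ∧ ∑ b, ∑ j, ‖c b j‖ ≤ C₁ :=
    ⟨_, Finset.sum_nonneg fun _ _ => Finset.sum_nonneg fun _ _ => norm_nonneg _, le_rfl⟩
  obtain ⟨C₂, hC₂1, hC₂⟩ := exists_bound (fun o : Fin n => ∑ b, ‖γ b o‖)
  obtain ⟨E, hE⟩ := exists_nat_ge (3 * C + 5)
  obtain ⟨p, hp⟩ : ∃ p : ℕ, p = ∑ i, if tor i then 0 else 1 := ⟨_, rfl⟩
  obtain ⟨q, hq⟩ : ∃ q : ℕ, q = ∑ i, if tor i then 1 else 0 := ⟨_, rfl⟩
  obtain ⟨S, hS⟩ : ∃ S : ℕ, S = ∑ i, ex tor a d i := ⟨_, rfl⟩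
  rw [← hS] at hcount
  obtain ⟨L, hL⟩ : ∃ L : ℕ, L = (S + n) + (a + d + 2) + (s + 1) := ⟨_, rfl⟩
  have hs : s < u := by omega
  obtain ⟨M₀, hM₀⟩ := exists_nat_ge (2 + V + B + p + q + m + C₂)
  suffices hev : ∀ᶠ M : ℕ in atTop, ∃ P : Rg n, P ≠ 0 ∧ (∀ i, P.degreeOf i ≤ M ^ ex tor a d i) ∧
      ∀ g : Fin m → ℤ, (∀ k, 0 ≤ g k ∧ g k < (M ^ s : ℕ)) → ∀ k1 k2, k1 + k2 < M ^ t →
        ev tor (gp γ g) ((dr tor w1)^[k1] ((dr tor w2)^[k2] P)) = 0 by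
    exact eventually_atTop.1 hev
  filter_upwards [eventually_ge_atTop M₀, ev3 (show (0 : ℝ) ≤ 3 by norm_num) htu,
    ev3 (show (0 : ℝ) ≤ 3 * p by positivity) hau,
    ev3 (show (0 : ℝ) ≤ 3 * (q * m) by positivity) hdsu,
    ev2 (3 * L) (show 0 < u by omega), ev2 (3 * L) htu, ev2 (3 * (L * p)) hau,
    ev3 (show (0 : ℝ) ≤ C₁ + 1 by linarith) hs,
    ev3 (show (0 : ℝ) ≤ 2 * (3 * (q * C₂)) by positivity) hdsu,
    ev1 (2 * (4 * (E + 1) ^ k * (3 + E + (1 + k * (E + 1)) * L)))] with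
    M hM e1 e2 e3 e4 e5 e6 e7 e8 e9
  have hMr : 2 + V + B + p + q + m + C₂ ≤ (M : ℝ) := hM₀.trans (by exact_mod_cast hM)
  have hp0 : (0 : ℝ) ≤ p := by positivity
  have hq0 : (0 : ℝ) ≤ q := by positivity
  have hm0 : (0 : ℝ) ≤ m := by positivity
  have hM2 : (2 : ℝ) ≤ M := by linarith
  have hM1 : (1 : ℝ) ≤ M := by linarith
  have hM1n : 1 ≤ M := by exact_mod_cast hM1
  have hM0 : (0 : ℝ) < M := by linarith
  have hlog := Real.log_nonneg hM1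
  have hU1 : 1 ≤ M ^ u := Nat.one_le_pow _ _ hM1n
  have hpw : ∀ a b : ℕ, a ≤ b → (M : ℝ) ^ a ≤ (M : ℝ) ^ b := fun a b h => pow_le_pow_right₀ hM1 h
  have hone : ∀ a : ℕ, (1 : ℝ) ≤ (M : ℝ) ^ a := fun a => one_le_pow₀ hM1
  have hsucc : ∀ a : ℕ, (M : ℝ) ^ a + 1 ≤ (M : ℝ) ^ (a + 1) := fun a => by
    have := hone a
    rw [pow_succ]
    nlinarith
  have hlogG : Real.log ((M : ℝ) ^ L) = L * Real.log M := by rw [Real.log_pow]
  have hDa : Da tor (fun i => M ^ ex tor a d i) = p * M ^ a := by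
    rw [Da, hp, Finset.sum_mul]
    refine Finset.sum_congr rfl fun i _ => ?_
    rcases h : tor i with _ | _ <;> simp [ex, h]
  have hDt : Dt tor (fun i => M ^ ex tor a d i) = q * M ^ d := by
    rw [Dt, hq, Finset.sum_mul]
    refine Finset.sum_congr rfl fun i _ => ?_
    rcases h : tor i with _ | _ <;> simp [ex, h]
  have hcardIx : (Fintype.card (Ix (fun i : Fin n => M ^ ex tor a d i)) : ℝ) =
      ∏ i, ((M : ℝ) ^ ex tor a d i + 1) := by
    simp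
  have hg1 : (Fintype.card (Ix (fun i : Fin n => M ^ ex tor a d i)) : ℝ) ≤ (M : ℝ) ^ L := by
    rw [hcardIx]
    calc ∏ i, ((M : ℝ) ^ ex tor a d i + 1)
        ≤ ∏ i : Fin n, (M : ℝ) ^ (ex tor a d i + 1) :=
          Finset.prod_le_prod (fun i _ => by positivity) fun i _ => hsucc _
      _ = (M : ℝ) ^ (S + n) := by
          rw [Finset.prod_pow_eq_pow_sum, Finset.sum_add_distrib, hS]
          simp
      _ ≤ (M : ℝ) ^ L := hpw _ _ (by omega)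
  have hg2 : V * (((p * M ^ a : ℕ) : ℝ) + ((q * M ^ d : ℕ) : ℝ)) ≤ (M : ℝ) ^ L := by
    push_cast
    calc V * (p * (M : ℝ) ^ a + q * (M : ℝ) ^ d)
        ≤ M * (p * (M : ℝ) ^ (a + d) + q * (M : ℝ) ^ (a + d)) := by
          have := hpw a (a + d) (by omega)
          have := hpw d (a + d) (by omega)
          gcongr
          linarith
      _ = M * ((p + q) * (M : ℝ) ^ (a + d)) := by ring
      _ ≤ M * (M * (M : ℝ) ^ (a + d)) := by
          gcongr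
          linarith
      _ = (M : ℝ) ^ (a + d + 2) := by ring
      _ ≤ (M : ℝ) ^ L := hpw _ _ (by omega)
  have hg3 : ((Fintype.card (Fin m) : ℝ) * ((M ^ s : ℕ) : ℝ) + 1) ≤ (M : ℝ) ^ L := by
    rw [Fintype.card_fin]
    push_cast
    calc m * (M : ℝ) ^ s + 1 ≤ m * (M : ℝ) ^ s + (M : ℝ) ^ s := by linarith [hone s]
      _ = (m + 1) * (M : ℝ) ^ s := by ring
      _ ≤ M * (M : ℝ) ^ s := by gcongr; linarith
      _ = (M : ℝ) ^ (s + 1) := by ring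
      _ ≤ (M : ℝ) ^ L := hpw _ _ (by omega)
  have hg4 : C₂ * (M : ℝ) ^ s ≤ (M : ℝ) ^ L := by
    calc C₂ * (M : ℝ) ^ s ≤ M * (M : ℝ) ^ s := by gcongr; linarith
      _ = (M : ℝ) ^ (s + 1) := by ring
      _ ≤ (M : ℝ) ^ L := hpw _ _ (by omega)
  have hg5 : B ≤ (M : ℝ) ^ L := by
    calc B ≤ (M : ℝ) ^ 1 := by rw [pow_one]; linarith
      _ ≤ (M : ℝ) ^ L := hpw _ _ (by omega)
  have hR1 : 1 ≤ C₂ * (M : ℝ) ^ s := one_le_mul_of_one_le_of_one_le hC₂1 (hone s)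
  have hR : ∀ o, ∑ b, ((M ^ s : ℕ) : ℝ) * ‖γ b o‖ ≤ C₂ * (M : ℝ) ^ s := fun o => by
    rw [← Finset.mul_sum, mul_comm]
    push_cast
    exact mul_le_mul_of_nonneg_right (hC₂ o) (by positivity)
  have hi1 : M ^ t + (p * M ^ a + q * M ^ d * (Fintype.card (Fin m) * M ^ s)) ≤ M ^ u := by
    rw [Fintype.card_fin]
    have : (M : ℝ) ^ t + (p * (M : ℝ) ^ a + q * (M : ℝ) ^ d * (m * (M : ℝ) ^ s)) ≤ (M : ℝ) ^ u := by
      have e : 3 * (q * m : ℝ) * (M : ℝ) ^ (d + s) =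
          3 * (q * (M : ℝ) ^ d * (m * (M : ℝ) ^ s)) := by ring
      rw [e] at e3
      linarith
    exact_mod_cast this
  have hi2 : (1 + ((M ^ t : ℕ) : ℝ) + ((p * M ^ a : ℕ) : ℝ)) * Real.log ((M : ℝ) ^ L) ≤
      ((M ^ u : ℕ) : ℝ) := by
    rw [hlogG]
    push_cast
    have key : ∀ (a : ℕ) (z : ℝ), 0 ≤ z → 3 * (L * z : ℝ) * (1 + Real.log M) * (M : ℝ) ^ a ≤ (M : ℝ) ^ u →
        3 * (z * (M : ℝ) ^ a * (L * Real.log M)) ≤ (M : ℝ) ^ u := fun a z hz h => by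
      refine le_trans ?_ h
      have : 0 ≤ 3 * (L * z : ℝ) * (M : ℝ) ^ a := by positivity
      nlinarith
    have f1 := key 0 1 zero_le_one (by rw [mul_one]; exact e4)
    have f2 := key t 1 zero_le_one (by rw [mul_one]; exact e5)
    have f3 := key a p hp0 e6
    rw [pow_zero] at f1
    linarith
  have hi3 : C₁ * ((M ^ s : ℕ) : ℝ) + 1 ≤ ((M ^ u : ℕ) : ℝ) := by
    push_cast
    have := hone s
    linarith
  have hi4 : 3 * (((q * M ^ d : ℕ) : ℝ) * (C₂ * (M : ℝ) ^ s)) + ((p * M ^ a : ℕ) : ℝ) ≤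
      ((M ^ u : ℕ) : ℝ) := by
    push_cast
    have e : 2 * (3 * (q * C₂)) * (M : ℝ) ^ (d + s) =
          2 * (3 * (q * (M : ℝ) ^ d * (C₂ * (M : ℝ) ^ s))) := by ring
    rw [e] at e8
    have : (0 : ℝ) ≤ (M : ℝ) ^ u := by positivity
    linarith
  have hi5 : 4 * (((E + 1) * M ^ u : ℕ) : ℝ) ^ (n - 1) *
      (3 + E + (1 + ((n - 1 : ℕ) : ℝ) * (E + 1)) * Real.log ((M : ℝ) ^ L)) <
      Fintype.card (Ix (fun i : Fin n => M ^ ex tor a d i)) := by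
    rw [hlogG, hcardIx, ← hk]
    push_cast
    have f1 : 3 + (E : ℝ) + (1 + k * (E + 1)) * (L * Real.log M) ≤
        (3 + E + (1 + k * (E + 1)) * L) * (1 + Real.log M) := by
      have g1 : (0 : ℝ) ≤ (3 + E) * Real.log M := by positivity
      have g2 : (0 : ℝ) ≤ (1 + k * (E + 1)) * L := by positivity
      nlinarith
    have hMnu : (0 : ℝ) < (M : ℝ) ^ (k * u) := by positivity
    calc 4 * (((E : ℝ) + 1) * (M : ℝ) ^ u) ^ k * (3 + E + (1 + k * (E + 1)) * (L * Real.log M))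
        ≤ 4 * (((E : ℝ) + 1) * (M : ℝ) ^ u) ^ k *
            ((3 + E + (1 + k * (E + 1)) * L) * (1 + Real.log M)) := by gcongr
      _ = (M : ℝ) ^ (k * u) * ((4 * (E + 1) ^ k * (3 + E + (1 + k * (E + 1)) * L)) *
            (1 + Real.log M)) := by
          rw [mul_pow, ← pow_mul, mul_comm u k]
          ring
      _ < (M : ℝ) ^ (k * u) * M := by
          refine mul_lt_mul_of_pos_left ?_ hMnu
          linarith
      _ = (M : ℝ) ^ (k * u + 1) := by ring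
      _ ≤ (M : ℝ) ^ S := hpw _ _ hcount
      _ = ∏ i, (M : ℝ) ^ ex tor a d i := by rw [Finset.prod_pow_eq_pow_sum, hS]
      _ ≤ ∏ i, ((M : ℝ) ^ ex tor a d i + 1) :=
          Finset.prod_le_prod (fun i _ => by positivity) fun i _ => by linarith
  obtain ⟨P, hP0, hP1, hP3⟩ := core tor v b γ c hc hVv hVw hVge hB hB1 hC hC1 hC₁ E
    (fun i => M ^ ex tor a d i) (M ^ s) (M ^ t) (M ^ u) hDa hDt hR1 hR hE hU1 hg1 hg2 hg3 hg4 hg5
    hi1 hi2 hi3 hi4 hi5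
  refine ⟨P, hP0, hP1, fun g hg k1 k2 hk12 => ?_⟩
  have h1 := hP3 (fun b => (g b).toNat) (fun b => by have := hg b; omega)
    (List.replicate k2 1 ++ List.replicate k1 0) (by simp; omega)
  rw [hbw, W_append, W_replicate, W_replicate] at h1
  have h2 : (∑ b, (g b).toNat • γ b) = gp γ g := by
    rw [gp]
    refine Finset.sum_congr rfl fun b _ => ?_
    rw [← Nat.cast_smul_eq_nsmul ℂ]
    congr 1
    have := Int.toNat_of_nonneg (hg b).1
    exact_mod_cast congrArg (Int.cast : ℤ → ℂ) this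
  rw [h2] at h1
  exact h1

end Pool.Agent.Helper50.TrsE
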