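import Pool.Agent.Helper37.PiE.Engine
import Pool.Agent.Helper17.Trs.Defs

/-! # Invariant derivations on `G_a^p × G_m^q` and Taylor expansions along one parameter subgroups -/

open MvPolynomial Trs

namespace Pool.Agent.Helper50.TrsE

section basic

variable {n : ℕ} {tor : Fin n → Bool}

theorem dr_X_tor (w : Fin n → ℂ) {i : Fin n} (h : tor i = true) : dr tor w (X i) = C (w i) * X i := by
  simp [dr, h]

theorem dr_X_add (w : Fin n → ℂ) {i : Fin n} (h : tor i = false) : dr tor w (X i) = C (w i) := by
  simp [dr, h]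

theorem dr_comm (v w : Fin n → ℂ) (P : Rg n) : dr tor v (dr tor w P) = dr tor w (dr tor v P) := by
  have h : ⁅dr tor v, dr tor w⁆ = 0 := by
    apply MvPolynomial.derivation_ext
    intro o
    rw [Derivation.commutator_apply]
    rcases ho : tor o with _ | _
    · rw [dr_X_add v ho, dr_X_add w ho, derivation_C, derivation_C]
      simp
    · rw [dr_X_tor v ho, dr_X_tor w ho, Derivation.leibniz, Derivation.leibniz, derivation_C,
        derivation_C, dr_X_tor v ho, dr_X_tor w ho]
      simp only [smul_eq_mul, Derivation.coe_zero, Pi.zero_apply]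
      ring
  have h2 := congrArg (fun D => D P) h
  simp only [Derivation.commutator_apply, Derivation.coe_zero, Pi.zero_apply] at h2
  exact sub_eq_zero.1 h2

theorem dr_sum {k : ℕ} (c : Fin k → ℂ) (v : Fin k → Fin n → ℂ) (P : Rg n) :
    dr tor (∑ j, c j • v j) P = ∑ j, c j • dr tor (v j) P := by
  have h : dr tor (∑ j, c j • v j) = ∑ j, c j • dr tor (v j) := by
    apply MvPolynomial.derivation_ext
    intro o
    have e : ∀ D : Fin k → Derivation ℂ (Rg n) (Rg n),
        ∀ Q, (∑ j, D j) Q = ∑ j, D j Q := fun D Q => by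
      rw [← Derivation.coeFnAddMonoidHom_apply, map_sum, Finset.sum_apply]
      rfl
    rw [e]
    rcases ho : tor o with _ | _
    · simp only [dr_X_add _ ho, Derivation.smul_apply, Finset.sum_apply, Pi.smul_apply, smul_eq_mul,
        map_sum, map_mul, MvPolynomial.smul_eq_C_mul]
    · simp only [dr_X_tor _ ho, Derivation.smul_apply, Finset.sum_apply, Pi.smul_apply, smul_eq_mul,
        map_sum, map_mul, MvPolynomial.smul_eq_C_mul, Finset.sum_mul, mul_assoc]
  rw [h]
  rw [← Derivation.coeFnAddMonoidHom_apply, map_sum, Finset.sum_apply]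
  rfl

/-- evaluation at `exp z` as a linear map -/
noncomputable def el (tor : Fin n → Bool) (z : Fin n → ℂ) : Rg n →ₗ[ℂ] ℂ := (ev tor z).toLinearMap

theorem el_apply (z : Fin n → ℂ) (P : Rg n) : el tor z P = ev tor z P := rfl

/-- the operator attached to a word -/
noncomputable def W (tor : Fin n → Bool) {k : ℕ} (v : Fin k → Fin n → ℂ) :
    List (Fin k) → Rg n →ₗ[ℂ] Rg n
  | [] => LinearMap.id
  | j :: l => W tor v l ∘ₗ ((dr tor (v j) : Derivation ℂ _ _) : Rg n →ₗ[ℂ] Rg n)

theorem W_nil {k : ℕ} (v : Fin k → Fin n → ℂ) (P : Rg n) : W tor v [] P = P := rfl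

theorem W_cons {k : ℕ} (v : Fin k → Fin n → ℂ) (j : Fin k) (l : List (Fin k)) (P : Rg n) :
    W tor v (j :: l) P = W tor v l (dr tor (v j) P) := rfl

theorem W_dr {k : ℕ} (v : Fin k → Fin n → ℂ) (w : Fin n → ℂ) (l : List (Fin k)) (P : Rg n) :
    W tor v l (dr tor w P) = dr tor w (W tor v l P) := by
  induction l generalizing P with
  | nil => rfl
  | cons j l ih => rw [W_cons, W_cons, dr_comm, ih]

theorem W_append {k : ℕ} (v : Fin k → Fin n → ℂ) (l l' : List (Fin k)) (P : Rg n) :
    W tor v (l ++ l') P = W tor v l' (W tor v l P) := by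
  induction l generalizing P with
  | nil => rfl
  | cons j l ih => rw [List.cons_append, W_cons, W_cons, ih]

theorem W_replicate {k : ℕ} (v : Fin k → Fin n → ℂ) (j : Fin k) (r : ℕ) (P : Rg n) :
    W tor v (List.replicate r j) P = (dr tor (v j))^[r] P := by
  induction r generalizing P with
  | zero => rfl
  | succ r ih => rw [List.replicate_succ, W_cons, ih, Function.iterate_succ_apply]

theorem W_perm {k : ℕ} (v : Fin k → Fin n → ℂ) {l l' : List (Fin k)} (h : l.Perm l') (P : Rg n) :
    W tor v l P = W tor v l' P := by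
  induction h generalizing P with
  | nil => rfl
  | cons j _ ih => rw [W_cons, W_cons, ih]
  | swap j k l => rw [W_cons, W_cons, W_cons, W_cons, dr_comm]
  | trans _ _ ih1 ih2 => rw [ih1, ih2]

end basic

section mono

variable {n : ℕ} (tor : Fin n → Bool)

/-- monomials -/
noncomputable def mo (s : Fin n →₀ ℕ) : Rg n := monomial s 1

/-- the frequency of a monomial along `v` -/
noncomputable def fr (s : Fin n →₀ ℕ) (v : Fin n → ℂ) : ℂ := ∑ i, if tor i then (s i : ℂ) * v i else 0

/-- the additive part -/
noncomputable def ad (s : Fin n →₀ ℕ) (v : Fin n → ℂ) : ℂ := ∏ i, if tor i then 1 else v i ^ s i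

/-- the additive degree -/
def da (s : Fin n →₀ ℕ) : ℕ := ∑ i, if tor i then 0 else s i

/-- the multiplicative degree -/
def dt (s : Fin n →₀ ℕ) : ℕ := ∑ i, if tor i then s i else 0

theorem dr_mo (s : Fin n →₀ ℕ) (v : Fin n → ℂ) :
    dr tor v (mo s) = fr tor s v • mo s +
      ∑ i, (if tor i then 0 else (s i : ℂ) * v i) • mo (s - Finsupp.single i 1) := by
  rw [mo, dr, mkDerivation_monomial, one_smul, Finsupp.sum_fintype _ _ (by simp), fr, Finset.sum_smul,
    ← Finset.sum_add_distrib]
  refine Finset.sum_congr rfl fun i _ => ?_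
  rcases Nat.eq_zero_or_pos (s i) with h0 | h0
  · rw [h0]; simp
  · rcases ho : tor i with _ | _
    · simp only [Bool.false_eq_true, if_false, zero_smul, zero_add, smul_eq_mul, mo]
      rw [mul_comm, C_mul_monomial, smul_monomial, mul_comm]
      simp
    · simp only [if_true, zero_smul, add_zero, smul_eq_mul]
      rw [show (X i : Rg n) = monomial (Finsupp.single i 1) 1 from rfl, C_mul_monomial,
        monomial_mul, smul_monomial]
      congr 1
      · congr 1
        refine tsub_add_cancel_of_le ?_
        rw [Finsupp.single_le_iff]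
        exact h0
      · simp

theorem ev_mo (s : Fin n →₀ ℕ) (v : Fin n → ℂ) :
    ev tor v (mo s) = ad tor s v * Complex.exp (fr tor s v) := by
  rw [ev, mo, aeval_monomial, map_one, one_mul, Finsupp.prod_fintype _ _ (by simp), ad, fr, Complex.exp_sum,
    ← Finset.prod_mul_distrib]
  refine Finset.prod_congr rfl fun i _ => ?_
  rcases ho : tor i with _ | _
  · simp
  · simp only [if_true, one_mul]
    rw [← Complex.exp_nat_mul]

theorem fr_zero (s : Fin n →₀ ℕ) : fr tor s 0 = 0 := by
  rw [fr]
  refine Finset.sum_eq_zero fun i _ => ?_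
  split_ifs <;> simp

theorem e0_mo (s : Fin n →₀ ℕ) : ev tor 0 (mo s) = 0 ^ da tor s := by
  rw [ev_mo, fr_zero, Complex.exp_zero, mul_one, ad, da, ← Finset.prod_pow_eq_pow_sum]
  refine Finset.prod_congr rfl fun i _ => ?_
  split_ifs <;> simp

theorem sub_single_apply (s : Fin n →₀ ℕ) (i j : Fin n) :
    (s - Finsupp.single i 1 : Fin n →₀ ℕ) j = if i = j then s j - 1 else s j := by
  rw [Finsupp.tsub_apply, Finsupp.single_apply]
  split_ifs <;> simp

theorem fr_sub (s : Fin n →₀ ℕ) (v : Fin n → ℂ) {i : Fin n} (h : tor i = false) :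
    fr tor (s - Finsupp.single i 1) v = fr tor s v := by
  rw [fr, fr]
  refine Finset.sum_congr rfl fun j _ => ?_
  rw [sub_single_apply]
  by_cases hj : i = j
  · subst hj; simp [h]
  · rw [if_neg hj]

theorem da_sub (s : Fin n →₀ ℕ) {i : Fin n} (h : tor i = false) (hs : 0 < s i) :
    da tor (s - Finsupp.single i 1) + 1 = da tor s := by
  rw [da, da, ← Finset.add_sum_erase _ _ (Finset.mem_univ i), ← Finset.add_sum_erase _ _ (Finset.mem_univ i)]
  have : ∑ j ∈ Finset.univ.erase i, (if tor j then 0 else (s - Finsupp.single i 1 : Fin n →₀ ℕ) j) =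
      ∑ j ∈ Finset.univ.erase i, (if tor j then 0 else s j) := by
    refine Finset.sum_congr rfl fun j hj => ?_
    rw [sub_single_apply, if_neg (Finset.ne_of_mem_erase hj).symm]
  rw [this, sub_single_apply, if_pos rfl, h]
  simp only [Bool.false_eq_true, if_false]
  omega

theorem ad_sub (s : Fin n →₀ ℕ) (v : Fin n → ℂ) {i : Fin n} (h : tor i = false) (hs : 0 < s i) :
    v i * ad tor (s - Finsupp.single i 1) v = ad tor s v := by
  rw [ad, ad, ← Finset.mul_prod_erase _ _ (Finset.mem_univ i), ← Finset.mul_prod_erase _ _ (Finset.mem_univ i)]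
  have : ∏ j ∈ Finset.univ.erase i, (if tor j then 1 else v j ^ (s - Finsupp.single i 1 : Fin n →₀ ℕ) j) =
      ∏ j ∈ Finset.univ.erase i, (if tor j then 1 else v j ^ s j) := by
    refine Finset.prod_congr rfl fun j hj => ?_
    rw [sub_single_apply, if_neg (Finset.ne_of_mem_erase hj).symm]
  rw [this, sub_single_apply, if_pos rfl, h]
  simp only [Bool.false_eq_true, if_false]
  obtain ⟨r, hr⟩ := Nat.exists_eq_add_of_le' hs
  rw [hr, Nat.add_sub_cancel, pow_succ]
  ring

theorem iter_lin (w : Fin n → ℂ) (k : ℕ) (a b : ℂ) (P Q : Rg n) :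
    (dr tor w)^[k] (a • P + b • Q) = a • (dr tor w)^[k] P + b • (dr tor w)^[k] Q := by
  induction k generalizing P Q with
  | zero => rfl
  | succ k ih =>
    rw [Function.iterate_succ_apply, map_add, Derivation.map_smul, Derivation.map_smul, ih]
    rfl

/-- iterated derivation as a linear map -/
noncomputable def it (w : Fin n → ℂ) (k : ℕ) : Rg n →ₗ[ℂ] Rg n where
  toFun P := (dr tor w)^[k] P
  map_add' P Q := by simpa using iter_lin tor w k 1 1 P Q
  map_smul' a P := by simpa using iter_lin tor w k a 0 P 0

theorem it_apply (w : Fin n → ℂ) (k : ℕ) (P : Rg n) : it tor w k P = (dr tor w)^[k] P := rfl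

theorem it_succ (w : Fin n → ℂ) (k : ℕ) (P : Rg n) : it tor w (k + 1) P = it tor w k (dr tor w P) := rfl

/-- Taylor coefficients of a monomial along a one parameter subgroup -/
theorem e0_iter (k : ℕ) (v : Fin n → ℂ) : ∀ s : Fin n →₀ ℕ,
    ev tor 0 (it tor v k (mo s)) = (k.descFactorial (da tor s) : ℂ) * ad tor s v * fr tor s v ^ (k - da tor s) := by
  induction k with
  | zero =>
    intro s
    rw [it_apply, Function.iterate_zero_apply, e0_mo]
    rcases h : da tor s with _ | p
    · have : ad tor s v = 1 := by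
        rw [ad]
        refine Finset.prod_eq_one fun i _ => ?_
        have h1 : (if tor i then 0 else s i) = 0 := by
          rw [da] at h
          exact (Finset.sum_eq_zero_iff.1 h) i (Finset.mem_univ i)
        split_ifs at h1 ⊢ with h2
        · rfl
        · rw [h1, pow_zero]
      rw [this]; simp
    · simp
  | succ k ih =>
    intro s
    rw [it_succ, dr_mo, map_add, map_smul, map_sum, map_add, map_smul, map_sum, ih]
    have h1 : ∀ i ∈ Finset.univ, ev tor 0 (it tor v k ((if tor i then 0 else (s i : ℂ) * v i) •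
        mo (s - Finsupp.single i 1))) = ((if tor i then 0 else s i : ℕ) : ℂ) *
        ((k.descFactorial (da tor s - 1) : ℂ) * ad tor s v * fr tor s v ^ (k - (da tor s - 1))) := by
      intro i _
      rw [map_smul, map_smul, ih, smul_eq_mul]
      rcases ho : tor i with _ | _
      · simp only [Bool.false_eq_true, if_false]
        rcases Nat.eq_zero_or_pos (s i) with h0 | h0
        · rw [h0]; simp
        · have e1 := da_sub tor s ho h0
          rw [fr_sub tor s v ho, ← ad_sub tor s v ho h0, ← e1, Nat.add_sub_cancel]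
          ring
      · simp
    rw [Finset.sum_congr rfl h1, ← Finset.sum_mul, ← Nat.cast_sum]
    rw [show (∑ i, if tor i then 0 else s i) = da tor s from rfl]
    simp only [smul_eq_mul]
    obtain ⟨p, hp⟩ : ∃ p, p = da tor s := ⟨_, rfl⟩
    rw [← hp]
    rcases p with _ | p
    · simp [pow_succ]
      ring
    · simp only [Nat.add_sub_cancel]
      rcases lt_trichotomy k p with h | h | h
      · rw [Nat.descFactorial_eq_zero_iff_lt.2 h, Nat.descFactorial_eq_zero_iff_lt.2 (by omega),
          Nat.descFactorial_eq_zero_iff_lt.2 (show k + 1 < p + 1 by omega)]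
        simp
      · subst h
        rw [Nat.descFactorial_eq_zero_iff_lt.2 (show k < k + 1 by omega),
          Nat.succ_descFactorial_succ, Nat.sub_self, Nat.sub_self]
        push_cast
        ring
      · obtain ⟨r, rfl⟩ := Nat.exists_eq_add_of_lt h
        rw [Nat.succ_descFactorial_succ (p + r + 1) p, Nat.descFactorial_succ (p + r + 1) p]
        have e1 : p + r + 1 - p = r + 1 := by omega
        have e2 : p + r + 1 - (p + 1) = r := by omega
        have e3 : p + r + 1 + 1 - (p + 1) = r + 1 := by omega
        rw [e1, e2, e3]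
        push_cast
        ring

end mono

end Pool.Agent.Helper50.TrsE
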