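import Pool.Agent.Helper50.Trs.AuxPol

/-! # Arithmetic size of the values of the auxiliary polynomial -/

open MvPolynomial Trs
open scoped Classical
open Pool.Agent.Helper37.PiE (Sz)

namespace Pool.Agent.Helper50.TrsE

section
variable {n : ℕ} (tor : Fin n → Bool) {β : Type*} [Fintype β] {r : ℕ}

/-- coordinates of `exp z` -/
noncomputable def ec (z : Fin n → ℂ) (i : Fin n) : ℂ := if tor i then Complex.exp (z i) else z i

/-- the algebraic numbers involved -/
noncomputable def gen (w : Fin r → Fin n → ℂ) (η : β → Fin n → ℂ) :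
    (Fin r × Fin n) ⊕ (β × Fin n) → ℂ :=
  Sum.elim (fun p => w p.1 p.2) (fun p => ec tor (η p.1) p.2)

theorem sz_v (w : Fin r → Fin n → ℂ) (η : β → Fin n → ℂ) (j : Fin r) (o : Fin n) :
    Sz (gen tor w η) (w j o) 1 1 :=
  Sz.gen (gen tor w η) (Sum.inl (j, o))

theorem sz_e (w : Fin r → Fin n → ℂ) (η : β → Fin n → ℂ) (b : β) (o : Fin n) :
    Sz (gen tor w η) (ec tor (η b) o) 1 1 :=
  Sz.gen (gen tor w η) (Sum.inr (b, o))

theorem sz_base (w : Fin r → Fin n → ℂ) (η : β → Fin n → ℂ) {m : β → ℕ} {N : ℕ} (hm : ∀ b, m b ≤ N)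
    {D₀ D₁ : ℕ} {s : Fin n →₀ ℕ} (h0 : da tor s ≤ D₀) (h1 : dt tor s ≤ D₁) :
    Sz (gen tor w η) (ev tor (∑ b, m b • η b) (mo s))
      (D₀ + D₁ * (Fintype.card β * N)) ((Fintype.card β * N + 1 : ℝ) ^ D₀) := by
  have e1 : ev tor (∑ b, m b • η b) (mo s) =
      (∏ i, (if tor i then 1 else ∑ b, (m b : ℂ) * η b i) ^ (if tor i then 0 else s i)) *
        ∏ i, ∏ b, (if tor i then ec tor (η b) i else 1) ^ ((if tor i then s i else 0) * m b) := by
    rw [ev_mo, fr, Complex.exp_sum, ad]
    congr 1
    · refine Finset.prod_congr rfl fun i _ => ?_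
      split_ifs
      · simp
      · simp [Finset.sum_apply]
    · refine Finset.prod_congr rfl fun i _ => ?_
      by_cases hi : tor i = true
      · simp only [if_pos hi, ec]
        rw [Finset.sum_apply, Finset.mul_sum, Complex.exp_sum]
        refine Finset.prod_congr rfl fun b _ => ?_
        rw [← Complex.exp_nat_mul]
        congr 1
        simp only [Pi.smul_apply, nsmul_eq_mul]
        push_cast
        ring
      · simp [hi]
  rw [e1]
  have h3 : (∑ b, (m b : ℝ) * 1) ≤ Fintype.card β * N := by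
    simp only [mul_one]
    refine (Finset.sum_le_card_nsmul _ _ (N : ℝ) fun b _ => by exact_mod_cast hm b).trans ?_
    rw [Finset.card_univ, nsmul_eq_mul]
  have hbase : (0 : ℝ) ≤ Fintype.card β * N := by positivity
  have h2 : ∀ i, Sz (gen tor w η) (if tor i then 1 else ∑ b, (m b : ℂ) * η b i) 1 (Fintype.card β * N + 1 : ℝ) := by
    intro i
    by_cases hi : tor i = true
    · rw [if_pos hi]
      exact (Sz.one _).mono (by omega) (by linarith)
    · rw [if_neg hi]
      have : Sz (gen tor w η) (∑ b, (m b : ℂ) * η b i) 1 (∑ b, (m b : ℝ) * 1) := by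
        refine Sz.sum _ fun b _ => ?_
        have := (Sz.nat (gen tor w η) (m b)).mul (sz_e tor w η b i)
        simpa [ec, hi] using this
      exact this.mono le_rfl (by linarith)
  have h4 : Sz (gen tor w η) (∏ i, (if tor i then 1 else ∑ b, (m b : ℂ) * η b i) ^ (if tor i then 0 else s i)) D₀
      ((Fintype.card β * N + 1 : ℝ) ^ D₀) := by
    have := Sz.prod Finset.univ (fun i _ => (h2 i).pow (if tor i then 0 else s i))
    refine this.mono ?_ ?_
    · simp only [mul_one]; exact h0
    · rw [Finset.prod_pow_eq_pow_sum]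
      exact pow_le_pow_right₀ (by linarith) h0
  have h5 : Sz (gen tor w η) (∏ i, ∏ b, (if tor i then ec tor (η b) i else 1) ^ ((if tor i then s i else 0) * m b))
      (∑ i, ∑ b, ((if tor i then s i else 0) * m b) * 1)
      (∏ i : Fin n, ∏ b, (1 : ℝ) ^ ((if tor i then s i else 0) * m b)) := by
    refine Sz.prod _ fun i _ => Sz.prod _ fun b _ => ?_
    refine Sz.pow ?_ _
    by_cases hi : tor i = true
    · rw [if_pos hi]; exact sz_e tor w η b i
    · rw [if_neg hi]; exact (Sz.one _).mono (by omega) le_rfl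
  have h6 : (∑ i, ∑ b, ((if tor i then s i else 0) * m b) * 1) ≤ D₁ * (Fintype.card β * N) := by
    calc (∑ i, ∑ b, ((if tor i then s i else 0) * m b) * 1)
        ≤ ∑ i, ∑ _b : β, (if tor i then s i else 0) * N := by
          refine Finset.sum_le_sum fun i _ => Finset.sum_le_sum fun b _ => ?_
          rw [mul_one]
          exact Nat.mul_le_mul_left _ (hm b)
      _ = dt tor s * (Fintype.card β * N) := by
          simp only [Finset.sum_const, Finset.card_univ, smul_eq_mul]
          rw [dt, Finset.sum_mul]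
          exact Finset.sum_congr rfl fun i _ => by ring
      _ ≤ D₁ * (Fintype.card β * N) := Nat.mul_le_mul_right _ h1
  have h7 := h4.mul h5
  refine h7.mono (by omega) (le_of_eq ?_)
  simp

theorem sz_word (w : Fin r → Fin n → ℂ) (η : β → Fin n → ℂ) {m : β → ℕ} {N : ℕ} (hm : ∀ b, m b ≤ N)
    {D₀ D₁ : ℕ} (l : List (Fin r)) : ∀ s, da tor s ≤ D₀ → dt tor s ≤ D₁ →
    Sz (gen tor w η) (ev tor (∑ b, m b • η b) (W tor w l (mo s)))
      (l.length + (D₀ + D₁ * (Fintype.card β * N)))
      ((D₀ + D₁ : ℝ) ^ l.length * (Fintype.card β * N + 1 : ℝ) ^ D₀) := by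
  induction l with
  | nil =>
    intro s h0 h1
    have := sz_base tor w η hm h0 h1
    simpa [W_nil] using this
  | cons j l ih =>
    intro s h0 h1
    rw [W_cons, dr_mo, map_add, map_smul, map_sum, map_add, map_smul, map_sum]
    have h2 : Sz (gen tor w η) (fr tor s (w j)) 1 D₁ := by
      have h3 : Sz (gen tor w η) (fr tor s (w j)) 1 (∑ i, ((if tor i then s i else 0 : ℕ) : ℝ) * 1) := by
        rw [fr]
        refine Sz.sum _ fun i _ => ?_
        by_cases hi : tor i = true
        · rw [if_pos hi, if_pos hi]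
          have := (Sz.nat _ (s i)).mul (sz_v tor w η j i)
          rwa [zero_add] at this
        · rw [if_neg hi, if_neg hi]
          refine (Sz.zero _).mono (by omega) (by simp)
      refine h3.mono le_rfl ?_
      simp only [mul_one]
      rw [← Nat.cast_sum]
      exact_mod_cast h1
    have h3 : ∀ i ∈ Finset.univ, Sz (gen tor w η) (ev tor (∑ b, m b • η b) (W tor w l
        ((if tor i then 0 else (s i : ℂ) * w j i) • mo (s - Finsupp.single i 1))))
        (1 + (l.length + (D₀ + D₁ * (Fintype.card β * N))))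
        (((if tor i then 0 else s i : ℕ) : ℝ) *
          ((D₀ + D₁ : ℝ) ^ l.length * (Fintype.card β * N + 1 : ℝ) ^ D₀)) := by
      intro i _
      rw [map_smul, map_smul, smul_eq_mul]
      refine Sz.mul ?_ (ih _ ((da_sub_le tor s i).trans h0) ((dt_sub_le tor s i).trans h1))
      by_cases hi : tor i = true
      · rw [if_pos hi, if_pos hi]
        exact (Sz.zero _).mono (by omega) (by simp)
      · rw [if_neg hi, if_neg hi]
        have := (Sz.nat _ (s i)).mul (sz_v tor w η j i)
        rw [zero_add, mul_one] at this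
        exact this
    have h4 := (h2.mul (ih s h0 h1)).add (Sz.sum Finset.univ h3)
    rw [max_self] at h4
    simp only [smul_eq_mul]
    refine h4.mono ?_ ?_
    · rw [List.length_cons]; omega
    · rw [← Finset.sum_mul, ← Nat.cast_sum, List.length_cons, pow_succ]
      have h5 : ((∑ i, if tor i then 0 else s i : ℕ) : ℝ) ≤ D₀ := by exact_mod_cast h0
      have h6 : (0 : ℝ) ≤ (D₀ + D₁ : ℝ) ^ l.length * (Fintype.card β * N + 1 : ℝ) ^ D₀ := by positivity
      nlinarith

theorem sz_po (w : Fin r → Fin n → ℂ) (η : β → Fin n → ℂ) {m : β → ℕ} {N : ℕ} (hm : ∀ b, m b ≤ N)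
    {D : Fin n → ℕ} {X : ℕ} (x : Ix D → ℤ) (hx : ∀ i, |x i| ≤ X) (l : List (Fin r)) :
    Sz (gen tor w η) (ev tor (∑ b, m b • η b) (W tor w l (po x)))
      (l.length + (Da tor D + Dt tor D * (Fintype.card β * N)))
      (Fintype.card (Ix D) * (X * ((Da tor D + Dt tor D : ℝ) ^ l.length *
        (Fintype.card β * N + 1 : ℝ) ^ Da tor D))) := by
  rw [po, map_sum, map_sum]
  have : ∀ i ∈ Finset.univ, Sz (gen tor w η) (ev tor (∑ b, m b • η b)
      (W tor w l ((x i : ℂ) • mo (sx i))))
      (l.length + (Da tor D + Dt tor D * (Fintype.card β * N)))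
      ((X * ((Da tor D + Dt tor D : ℝ) ^ l.length *
        (Fintype.card β * N + 1 : ℝ) ^ Da tor D))) := fun i _ => by
    rw [map_smul, map_smul, smul_eq_mul]
    have h1 := (Sz.int (gen tor w η) (x i)).mul (sz_word tor w η hm l (sx i) (da_sx tor i) (dt_sx tor i))
    rw [zero_add] at h1
    refine h1.mono le_rfl (mul_le_mul_of_nonneg_right ?_ (by positivity))
    have := hx i
    rw [← Int.cast_abs]
    exact_mod_cast this
  have h2 := Sz.sum Finset.univ this
  rwa [Finset.sum_const, Finset.card_univ, nsmul_eq_mul] at h2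

end

end Pool.Agent.Helper50.TrsE
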