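import Pool.Agent.Helper50.Trs.Taylor

/-! # The auxiliary polynomial -/

open MvPolynomial Trs
open scoped Classical
open Pool.Agent.Helper37.PiE (canon canon_count perm_canon length_canon box)

namespace Pool.Agent.Helper50.TrsE

section

variable {n : ℕ} (tor : Fin n → Bool)

/-- the index set of monomials -/
abbrev Ix (D : Fin n → ℕ) : Type := (i : Fin n) → Fin (D i + 1)

/-- the exponents -/
noncomputable def sx {D : Fin n → ℕ} (x : Ix D) : Fin n →₀ ℕ :=
  Finsupp.equivFunOnFinite.symm fun i => (x i : ℕ)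

theorem sx_apply {D : Fin n → ℕ} (x : Ix D) (i : Fin n) : sx x i = (x i : ℕ) := rfl

/-- the polynomial with coefficients `x` -/
noncomputable def po {D : Fin n → ℕ} (x : Ix D → ℤ) : Rg n := ∑ i, (x i : ℂ) • mo (sx i)

/-- total additive degree -/
def Da (D : Fin n → ℕ) : ℕ := ∑ i, if tor i then 0 else D i

/-- total multiplicative degree -/
def Dt (D : Fin n → ℕ) : ℕ := ∑ i, if tor i then D i else 0

theorem da_sx {D : Fin n → ℕ} (x : Ix D) : da tor (sx x) ≤ Da tor D := by
  unfold da Da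
  refine Finset.sum_le_sum fun i _ => ?_
  have := (x i).2
  rw [sx_apply]
  split_ifs <;> omega

theorem dt_sx {D : Fin n → ℕ} (x : Ix D) : dt tor (sx x) ≤ Dt tor D := by
  unfold dt Dt
  refine Finset.sum_le_sum fun i _ => ?_
  have := (x i).2
  rw [sx_apply]
  split_ifs <;> omega

theorem aux {k : ℕ} (v : Fin k → Fin n → ℂ) {V : ℝ} (hV0 : 0 ≤ V) (hV : ∀ j o, ‖v j o‖ ≤ V)
    (D : Fin n → ℕ) (K' X : ℕ) {G : ℝ} (hG1 : 1 ≤ G) (hG : V * (Da tor D + Dt tor D) ≤ G)
    {ε : ℝ} (hε : 0 < ε)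
    (h : (⌊2 * ((Fintype.card (Ix D) * G ^ (k * K')) * X) / ε⌋₊ + 1) ^ (2 * K' ^ k) <
      (X + 1) ^ Fintype.card (Ix D)) :
    ∃ x : Ix D → ℤ, x ≠ 0 ∧ (∀ i, |x i| ≤ X) ∧
      ∀ l : List (Fin k), l.length < K' → ‖ev tor 0 (W tor v l (po x))‖ ≤ 2 * ε := by
  have hcard : Fintype.card (Fin k → Fin K') = K' ^ k := by simp
  have h0 : ∀ μ : Fin k → Fin K', ∑ i : Ix D, ‖ev tor 0 (W tor v (canon fun j => (μ j : ℕ))
      (mo (sx i)))‖ ≤ Fintype.card (Ix D) * G ^ (k * K') := by
    intro μ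
    have h1 : ∀ i : Ix D, ‖ev tor 0 (W tor v (canon fun j => (μ j : ℕ)) (mo (sx i)))‖ ≤ G ^ (k * K') := fun i => by
      have h2 := norm_phi_W_le tor v hV0 hV (el tor 0) (D₀ := Da tor D) (D₁ := Dt tor D) (τ := 1) (fun s _ _ => by
        rw [el_apply, e0_mo]
        rcases da tor s with _ | p <;> simp) (canon fun j => (μ j : ℕ)) (sx i) (da_sx tor i) (dt_sx tor i)
      rw [mul_one, el_apply] at h2
      refine h2.trans ?_
      refine (pow_le_pow_left₀ (by positivity) hG _).trans (pow_le_pow_right₀ hG1 ?_)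
      rw [length_canon]
      refine (Finset.sum_le_card_nsmul Finset.univ _ K' fun j _ => (μ j).2.le).trans ?_
      simp
    refine (Finset.sum_le_card_nsmul _ _ _ fun i _ => h1 i).trans ?_
    rw [Finset.card_univ, nsmul_eq_mul]
  obtain ⟨x, hx0, hxX, hx⟩ := box
    (fun (μ : Fin k → Fin K') (i : Ix D) => ev tor 0 (W tor v (canon fun j => (μ j : ℕ)) (mo (sx i)))) X hε
    h0 (by rw [hcard]; exact h)
  refine ⟨x, hx0, hxX, fun l hl => ?_⟩
  have hc : ∀ j, l.count j < K' := fun j => List.count_le_length.trans_lt hl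
  have h1 := hx fun j => ⟨l.count j, hc j⟩
  rw [W_perm v (perm_canon l), po, map_sum, map_sum]
  refine le_trans (le_of_eq ?_) h1
  congr 1
  refine Finset.sum_congr rfl fun i _ => ?_
  rw [map_smul, map_smul, smul_eq_mul, mul_comm]

theorem sx_inj {D : Fin n → ℕ} {x y : Ix D} (h : sx x = sx y) : x = y := by
  funext i
  apply Fin.ext
  have := DFunLike.congr_fun h i
  rwa [sx_apply, sx_apply] at this

theorem po_coeff {D : Fin n → ℕ} (x : Ix D → ℤ) (i : Ix D) : (po x).coeff (sx i) = x i := by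
  rw [po, MvPolynomial.coeff_sum, Finset.sum_eq_single i]
  · rw [MvPolynomial.coeff_smul, mo, MvPolynomial.coeff_monomial, if_pos rfl]
    simp
  · intro j _ hj
    rw [MvPolynomial.coeff_smul, mo, MvPolynomial.coeff_monomial, if_neg fun e => hj (sx_inj e)]
    simp
  · intro h
    exact absurd (Finset.mem_univ i) h

theorem po_ne_zero {D : Fin n → ℕ} {x : Ix D → ℤ} (hx : x ≠ 0) : po x ≠ 0 := by
  obtain ⟨i, hi⟩ := Function.ne_iff.1 hx
  intro h
  apply hi
  have := po_coeff x i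
  rw [h, MvPolynomial.coeff_zero] at this
  exact_mod_cast this.symm

theorem po_degree {D : Fin n → ℕ} (x : Ix D → ℤ) (o : Fin n) : (po x).degreeOf o ≤ D o := by
  rw [MvPolynomial.degreeOf_le_iff]
  intro m hm
  rw [po] at hm
  have := MvPolynomial.support_sum hm
  obtain ⟨i, -, hi⟩ := Finset.mem_biUnion.1 this
  have h2 := MvPolynomial.support_smul hi
  have h3 := MvPolynomial.support_monomial_subset h2
  rw [Finset.mem_singleton] at h3
  rw [h3, sx_apply]
  have := (i o).2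
  omega

end

end Pool.Agent.Helper50.TrsE
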