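import Pool.Agent.Helper50.Trs.Alg

/-! # The extrapolation step -/

open MvPolynomial Trs
open scoped Classical
open Pool.Agent.Helper37.PiE (Sz box_cond)

namespace Pool.Agent.Helper50.TrsE

section
variable {n : ℕ} (tor : Fin n → Bool) {β : Type*} [Fintype β] {k r : ℕ}

theorem core (v : Fin k → Fin n → ℂ) (b : Fin r → Fin k → ℂ) (η : β → Fin n → ℂ)
    (c : β → Fin k → ℂ) (hc : ∀ b, η b = ∑ j, c b j • v j)
    {V : ℝ} (hV : ∀ j o, ‖v j o‖ ≤ V) (hVw : ∀ a o, ‖(∑ j, b a j • v j) o‖ ≤ V) (hV1 : 1 ≤ V)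
    {B : ℝ} (hB : ∀ a, ∑ j, ‖b a j‖ ≤ B) (hB1 : 1 ≤ B)
    {C : ℝ} (hC : ∀ (x : ℂ) (D : ℕ) (H : ℝ), Sz (gen tor (fun a => ∑ j, b a j • v j) η) x D H → x ≠ 0 →
      Real.exp (-(C * (D + Real.log H))) ≤ ‖x‖)
    (hC1 : 1 ≤ C)
    {C₁ : ℝ} (hC₁ : ∑ b, ∑ j, ‖c b j‖ ≤ C₁) (E : ℕ) (D : Fin n → ℕ) (N T U : ℕ) {D₀ D₁ : ℕ}
    (hD₀ : Da tor D = D₀) (hD₁ : Dt tor D = D₁) {R G : ℝ} (hR1 : 1 ≤ R)
    (hR : ∀ o, ∑ b, N * ‖η b o‖ ≤ R) (hE : 3 * C + 5 ≤ E) (hU : 1 ≤ U)
    (g1 : (Fintype.card (Ix D) : ℝ) ≤ G) (g2 : V * (D₀ + D₁) ≤ G)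
    (g3 : (Fintype.card β * N + 1 : ℝ) ≤ G) (g4 : R ≤ G) (g5 : B ≤ G)
    (i1 : T + (D₀ + D₁ * (Fintype.card β * N)) ≤ U)
    (i2 : (1 + T + D₀) * Real.log G ≤ U) (i3 : C₁ * N + 1 ≤ U)
    (i4 : 3 * (D₁ * R) + D₀ ≤ U)
    (i5 : 4 * (((E + 1) * U : ℕ) : ℝ) ^ k * (3 + E + (1 + k * (E + 1)) * Real.log G) <
      Fintype.card (Ix D)) :
    ∃ P : Rg n, P ≠ 0 ∧ (∀ o, P.degreeOf o ≤ D o) ∧
      ∀ m : β → ℕ, (∀ b, m b ≤ N) → ∀ l : List (Fin r),
        l.length ≤ T → ev tor (∑ b, m b • η b) (W tor (fun a => ∑ j, b a j • v j) l P) = 0 := by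
  have hG1 : 1 ≤ G := hR1.trans g4
  have hl := Real.log_nonneg hG1
  have hT : T ≤ U := by omega
  have hUr : (1 : ℝ) ≤ U := by exact_mod_cast hU
  have hI1 : 1 ≤ Fintype.card (Ix D) := Fintype.card_pos
  have hE0 : (0 : ℝ) < Real.exp (-(E * U : ℝ)) := Real.exp_pos _
  have hbox := box_cond k E U T hU hT hG1 hI1 g1 i5
  obtain ⟨x, hx0, hxX, hx⟩ := aux tor v (by linarith) hV D (E * U + T) (2 ^ U) hG1
    (by rw [hD₀, hD₁]; exact g2) hE0 hbox
  refine ⟨po x, po_ne_zero hx0, po_degree x, fun m hm l hlT => ?_⟩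
  by_contra hne
  have hGexp : G = Real.exp (Real.log G) := (Real.exp_log (by linarith)).symm
  have h2 : (2 : ℝ) ≤ Real.exp 1 := by
    have := Real.add_one_le_exp (1 : ℝ); linarith
  have h2U : (2 : ℝ) ^ U ≤ Real.exp U := by
    have : Real.exp (U : ℝ) = Real.exp 1 ^ U := by rw [← Real.exp_nat_mul, mul_one]
    rw [this]
    exact pow_le_pow_left₀ (by norm_num) h2 _
  -- lower bound
  have hGT : ∀ k : ℕ, G ^ k = Real.exp (k * Real.log G) := fun k => by
    rw [Real.exp_nat_mul, ← hGexp]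
  have hbase : (D₀ + D₁ : ℝ) ≤ G := by
    refine le_trans ?_ g2
    have : (0 : ℝ) ≤ D₀ + D₁ := by positivity
    nlinarith
  have hsz0 := sz_po tor (fun a => ∑ j, b a j • v j) η hm x hxX l
  rw [hD₀, hD₁] at hsz0
  have hsz := hsz0.mono (D' := U)
    (H' := Real.exp (2 * U)) (by omega) (by
      calc (Fintype.card (Ix D) * (((2 ^ U : ℕ) : ℝ) * ((D₀ + D₁ : ℝ) ^
            l.length * (Fintype.card β * N + 1 : ℝ) ^ D₀)))
          ≤ G * (Real.exp U * (G ^ T * G ^ D₀)) := by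
            have a1 : (D₀ + D₁ : ℝ) ^ l.length ≤ G ^ T :=
              (pow_le_pow_left₀ (by positivity) hbase _).trans (pow_le_pow_right₀ hG1 hlT)
            have a2 : (Fintype.card β * N + 1 : ℝ) ^ D₀ ≤ G ^ D₀ :=
              pow_le_pow_left₀ (by positivity) g3 _
            push_cast
            gcongr
        _ = Real.exp (U + (1 + T + D₀) * Real.log G) := by
            rw [hGT, hGT]
            nth_rewrite 1 [hGexp]
            rw [← Real.exp_add, ← Real.exp_add, ← Real.exp_add]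
            congr 1
            ring
        _ ≤ Real.exp (2 * U) := Real.exp_le_exp.2 (by linarith))
  have hlow := hC _ _ _ hsz hne
  rw [Real.log_exp] at hlow
  -- upper bound
  have hw : ∑ b, m b • η b = ∑ j, (∑ b, (m b : ℂ) * c b j) • v j := by
    have : ∀ b, m b • η b = ∑ j, ((m b : ℂ) * c b j) • v j := fun b => by
      rw [hc b, Finset.smul_sum]
      refine Finset.sum_congr rfl fun j _ => ?_
      rw [mul_smul, Nat.cast_smul_eq_nsmul]
    simp only [this]
    rw [Finset.sum_comm]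
    refine Finset.sum_congr rfl fun j _ => ?_
    rw [Finset.sum_smul]
  have hRo : ∀ o, ‖(∑ j, (∑ b, (m b : ℂ) * c b j) • v j) o‖ ≤ R := fun o => by
    rw [← hw, Finset.sum_apply]
    refine (norm_sum_le _ _).trans (le_trans (Finset.sum_le_sum fun b _ => ?_) (hR o))
    rw [Pi.smul_apply, nsmul_eq_mul, norm_mul, Complex.norm_natCast]
    exact mul_le_mul_of_nonneg_right (by exact_mod_cast hm b) (norm_nonneg _)
  have hup := small_value tor v b (by linarith) hB hB1 hVw (fun i : Ix D => sx i)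
    (D₀ := D₀) (D₁ := D₁) (fun i => by rw [← hD₀]; exact da_sx tor i)
    (fun i => by rw [← hD₁]; exact dt_sx tor i)
    (fun i => (x i : ℂ)) (X := (2 : ℝ) ^ U) (fun i => by
      have := hxX i
      rw [Complex.norm_intCast, ← Int.cast_abs]
      exact_mod_cast this)
    (K := E * U) (K' := E * U + T) (by
      have : 0 < E := by
        have : (0 : ℝ) < E := by linarith
        exact_mod_cast this
      positivity) (ε := 2 * Real.exp (-(E * U : ℝ)))
    (fun l hl => hx l hl) (fun j => ∑ b, (m b : ℂ) * c b j) hR1 hRo l (by omega)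
  rw [← hw] at hup
  have ha : ∑ j, ‖∑ b, (m b : ℂ) * c b j‖ ≤ C₁ * N := by
    calc ∑ j, ‖∑ b, (m b : ℂ) * c b j‖ ≤ ∑ j, ∑ b, ‖c b j‖ * N := by
          refine Finset.sum_le_sum fun j _ => (norm_sum_le _ _).trans
            (Finset.sum_le_sum fun b _ => ?_)
          rw [norm_mul, Complex.norm_natCast, mul_comm]
          exact mul_le_mul_of_nonneg_left (by exact_mod_cast hm b) (norm_nonneg _)
      _ = (∑ b, ∑ j, ‖c b j‖) * N := by
          rw [Finset.sum_comm, Finset.sum_mul]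
          exact Finset.sum_congr rfl fun b _ => by rw [Finset.sum_mul]
      _ ≤ C₁ * N := mul_le_mul_of_nonneg_right hC₁ (Nat.cast_nonneg _)
  have hTlog : T * Real.log G ≤ U := by
    refine le_trans ?_ i2
    refine mul_le_mul_of_nonneg_right ?_ hl
    have : (0 : ℝ) ≤ D₀ := by positivity
    linarith
  have hhead : Real.exp (∑ j, ‖∑ b, (m b : ℂ) * c b j‖) * (B ^ l.length * (2 * Real.exp (-(E * U : ℝ)))) ≤
      Real.exp (2 * U - E * U) := by
    calc _ ≤ Real.exp (C₁ * N) * (G ^ T * (Real.exp 1 * Real.exp (-(E * U : ℝ)))) := by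
          have a1 : B ^ l.length ≤ G ^ T :=
            (pow_le_pow_left₀ (by linarith) g5 _).trans (pow_le_pow_right₀ hG1 hlT)
          gcongr
      _ = Real.exp (C₁ * N + 1 + T * Real.log G - E * U) := by
          rw [hGT, ← Real.exp_add, ← Real.exp_add, ← Real.exp_add]; ring_nf
      _ ≤ _ := Real.exp_le_exp.2 (by linarith)
  have htail : (Fintype.card (Ix D) : ℝ) * (2 : ℝ) ^ U *
        ((V * (D₀ + D₁)) ^ l.length *
          (R ^ D₀ * Real.exp (3 * (D₁ * R) - ((E * U : ℕ) - D₀)))) ≤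
      Real.exp (3 * U - E * U) := by
    calc _ ≤ G * Real.exp U * (G ^ T * (G ^ D₀ * Real.exp (U - E * U))) := by
          have a1 : (V * (D₀ + D₁ : ℝ)) ^ l.length ≤ G ^ T :=
            (pow_le_pow_left₀ (by positivity) g2 _).trans (pow_le_pow_right₀ hG1 hlT)
          have a2 : R ^ D₀ ≤ G ^ D₀ := pow_le_pow_left₀ (by positivity) g4 _
          have a3 : 3 * (D₁ * R) - (((E * U : ℕ) : ℝ) - D₀) ≤ U - E * U := by
            push_cast
            linarith
          gcongr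
      _ = Real.exp (2 * U - E * U + (1 + T + D₀) * Real.log G) := by
            rw [hGT, hGT]
            nth_rewrite 1 [hGexp]
            rw [← Real.exp_add, ← Real.exp_add, ← Real.exp_add, ← Real.exp_add]
            congr 1
            ring
      _ ≤ _ := Real.exp_le_exp.2 (by linarith)
  have htot : Real.exp (2 * U - E * U) + Real.exp (3 * U - E * U) ≤ Real.exp (4 * U - E * U) := by
    have b1 : Real.exp (2 * U - E * U) ≤ Real.exp (3 * U - E * U) := Real.exp_le_exp.2 (by linarith)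
    have b2 : Real.exp (4 * U - E * U) = Real.exp (3 * U - E * U) * Real.exp U := by
      rw [← Real.exp_add]; ring_nf
    have b3 : 2 ≤ Real.exp (U : ℝ) := h2.trans (Real.exp_le_exp.2 hUr)
    have b4 := Real.exp_pos (3 * U - E * U : ℝ)
    rw [b2]
    nlinarith
  have hfin : Real.exp (-(C * ((U : ℝ) + 2 * U))) ≤ Real.exp (4 * U - E * U) :=
    hlow.trans (hup.trans (le_trans (add_le_add hhead htail) htot))
  rw [Real.exp_le_exp] at hfin
  nlinarith

end

end Pool.Agent.Helper50.TrsE
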