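import Pool.Agent.Helper50.Trs.Jet

/-! # Smallness of values from smallness of jets at the neutral element -/

open MvPolynomial Trs
open Pool.Agent.Helper37.PiE (exp_tail)

namespace Pool.Agent.Helper50.TrsE

section

variable {n : ℕ} (tor : Fin n → Bool)

/-- words in combinations of the `v j` -/
theorem word_small {k r : ℕ} (v : Fin k → Fin n → ℂ) (c : Fin r → Fin k → ℂ) {B : ℝ}
    (hB : ∀ a, ∑ j, ‖c a j‖ ≤ B) (Φ : Rg n →ₗ[ℂ] ℂ) {ε : ℝ} (hε : 0 ≤ ε) (s : List (Fin r)) :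
    ∀ (L : ℕ) (Q : Rg n), (∀ l : List (Fin k), l.length = s.length + L → ‖Φ (W tor v l Q)‖ ≤ ε) →
      ∀ l : List (Fin k), l.length = L →
        ‖Φ (W tor v l (W tor (fun a => ∑ j, c a j • v j) s Q))‖ ≤ B ^ s.length * ε := by
  induction s with
  | nil =>
    intro L Q h l hl
    rw [W_nil, List.length_nil, pow_zero, one_mul]
    exact h l (by simp [hl])
  | cons a s ih =>
    intro L Q h l hl
    have hB0 : 0 ≤ B := (Finset.sum_nonneg fun _ _ => norm_nonneg _).trans (hB a)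
    have h1 : ∀ j, ‖Φ (W tor v l (W tor (fun a => ∑ j, c a j • v j) s (dr tor (v j) Q)))‖ ≤ B ^ s.length * ε := by
      intro j
      refine ih L (dr tor (v j) Q) (fun l' hl' => ?_) l hl
      rw [← W_cons]
      exact h (j :: l') (by simp [hl']; omega)
    rw [W_cons, dr_sum, map_sum, map_sum, map_sum, List.length_cons, pow_succ]
    refine (norm_sum_le _ _).trans ?_
    have h2 : ∀ j ∈ Finset.univ, ‖Φ (W tor v l (W tor (fun a => ∑ j, c a j • v j) s (c a j • dr tor (v j) Q)))‖ ≤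
        ‖c a j‖ * (B ^ s.length * ε) := by
      intro j _
      rw [map_smul, map_smul, map_smul, norm_smul]
      exact mul_le_mul_of_nonneg_left (h1 j) (norm_nonneg _)
    refine (Finset.sum_le_sum h2).trans ?_
    rw [← Finset.sum_mul]
    calc (∑ j, ‖c a j‖) * (B ^ s.length * ε) ≤ B * (B ^ s.length * ε) :=
          mul_le_mul_of_nonneg_right (hB a) (by positivity)
      _ = B ^ s.length * B * ε := by ring

theorem it_eq_W (w : Fin n → ℂ) (k : ℕ) (Q : Rg n) :
    it tor w k Q = W tor (fun _ : Fin 1 => w) (List.replicate k 0) Q := by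
  rw [it_apply, W_replicate]

/-- iterated derivatives along a combination of the `v j` -/
theorem iter_small {k : ℕ} (v : Fin k → Fin n → ℂ) (c : Fin k → ℂ) {ε : ℝ} (hε : 0 ≤ ε) (m : ℕ)
    (Q : Rg n) (h : ∀ l : List (Fin k), l.length = m → ‖ev tor 0 (W tor v l Q)‖ ≤ ε) :
    ‖ev tor 0 (it tor (∑ j, c j • v j) m Q)‖ ≤ (∑ j, ‖c j‖) ^ m * ε := by
  have := word_small tor v (fun _ : Fin 1 => c) (B := ∑ j, ‖c j‖) (fun _ => le_rfl) (el tor 0) hε
    (List.replicate m 0) 0 Q (fun l hl => h l (by simpa using hl)) [] rfl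
  rw [List.length_replicate] at this
  rw [it_eq_W]
  exact this

/-- the error of the Taylor polynomial -/
noncomputable def tl (w : Fin n → ℂ) (K : ℕ) : Rg n →ₗ[ℂ] ℂ :=
  el tor w - ∑ k ∈ Finset.range K, ((k.factorial : ℂ)⁻¹) • (el tor 0 ∘ₗ it tor w k)

theorem tl_apply (w : Fin n → ℂ) (K : ℕ) (P : Rg n) :
    tl tor w K P = ev tor w P - ∑ k ∈ Finset.range K, ((k.factorial : ℂ)⁻¹) * ev tor 0 (it tor w k P) := by
  simp [tl, LinearMap.sum_apply, el_apply]

theorem tl_mo (w : Fin n → ℂ) (K : ℕ) (s : Fin n →₀ ℕ) :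
    tl tor w K (mo s) = ad tor s w * (Complex.exp (fr tor s w) -
      ∑ j ∈ Finset.range (K - da tor s), fr tor s w ^ j / (j.factorial : ℂ)) := by
  rw [tl_apply, ev_mo, mul_sub, Finset.mul_sum]
  congr 1
  simp only [e0_iter]
  obtain ⟨p, hp⟩ : ∃ p, p = da tor s := ⟨_, rfl⟩
  rw [← hp]
  have h0 : ∀ k, ¬ p ≤ k → ((k.factorial : ℂ)⁻¹) *
      ((k.descFactorial p : ℂ) * ad tor s w * fr tor s w ^ (k - p)) = 0 := fun k hk => by
    rw [Nat.descFactorial_eq_zero_iff_lt.2 (not_le.1 hk)]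
    simp
  rw [← Finset.sum_filter_of_ne (p := fun k => p ≤ k)
    (fun k _ hk => by by_contra h; exact hk (h0 k h))]
  have hset : (Finset.range K).filter (fun k => p ≤ k) =
      (Finset.range (K - p)).map (addRightEmbedding p) := by
    ext k
    simp only [Finset.mem_filter, Finset.mem_range, Finset.mem_map, addRightEmbedding_apply]
    constructor
    · rintro ⟨h1, h2⟩
      exact ⟨k - p, by omega, by omega⟩
    · rintro ⟨j, hj, rfl⟩
      omega
  rw [hset, Finset.sum_map]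
  refine Finset.sum_congr rfl fun j _ => ?_
  simp only [addRightEmbedding_apply, Nat.add_sub_cancel]
  have hf : (((j + p).factorial : ℕ) : ℂ) = (j.factorial : ℂ) * ((j + p).descFactorial p : ℂ) := by
    have := Nat.factorial_mul_descFactorial (show p ≤ j + p by omega)
    rw [Nat.add_sub_cancel] at this
    rw [← this]
    push_cast
    ring
  have hd : ((j + p).descFactorial p : ℂ) ≠ 0 := by
    have : (j + p).descFactorial p ≠ 0 := by
      rw [Ne, Nat.descFactorial_eq_zero_iff_lt]; omega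
    exact_mod_cast this
  have hj : (j.factorial : ℂ) ≠ 0 := by exact_mod_cast j.factorial_ne_zero
  rw [hf]
  field_simp

theorem norm_fr_le {w : Fin n → ℂ} {R : ℝ} (hR0 : 0 ≤ R) (hR : ∀ o, ‖w o‖ ≤ R) {s : Fin n →₀ ℕ} {D₁ : ℕ}
    (hs : dt tor s ≤ D₁) : ‖fr tor s w‖ ≤ D₁ * R := by
  calc ‖fr tor s w‖ ≤ ∑ i, ‖if tor i then (s i : ℂ) * w i else 0‖ := norm_sum_le _ _
    _ ≤ ∑ i, ((if tor i then s i else 0 : ℕ) : ℝ) * R := by
        refine Finset.sum_le_sum fun i _ => ?_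
        split_ifs
        · rw [norm_mul, Complex.norm_natCast]
          exact mul_le_mul_of_nonneg_left (hR i) (Nat.cast_nonneg _)
        · simp
    _ = dt tor s * R := by rw [← Finset.sum_mul, ← Nat.cast_sum]; rfl
    _ ≤ D₁ * R := mul_le_mul_of_nonneg_right (by exact_mod_cast hs) hR0

theorem norm_ad_le {w : Fin n → ℂ} {R : ℝ} (hR1 : 1 ≤ R) (hR : ∀ o, ‖w o‖ ≤ R) {s : Fin n →₀ ℕ} {D₀ : ℕ}
    (hs : da tor s ≤ D₀) : ‖ad tor s w‖ ≤ R ^ D₀ := by
  rw [ad, norm_prod]
  calc ∏ i, ‖if tor i then 1 else w i ^ s i‖ ≤ ∏ i, R ^ (if tor i then 0 else s i) := by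
        refine Finset.prod_le_prod (fun _ _ => norm_nonneg _) fun i _ => ?_
        split_ifs
        · simp
        · rw [norm_pow]
          exact pow_le_pow_left₀ (norm_nonneg _) (hR i) _
    _ = R ^ da tor s := by rw [Finset.prod_pow_eq_pow_sum]; rfl
    _ ≤ R ^ D₀ := pow_le_pow_right₀ hR1 hs

theorem norm_tl_mo_le {w : Fin n → ℂ} {R : ℝ} (hR1 : 1 ≤ R) (hR : ∀ o, ‖w o‖ ≤ R) (K : ℕ)
    {D₀ D₁ : ℕ} {s : Fin n →₀ ℕ} (h0 : da tor s ≤ D₀) (h1 : dt tor s ≤ D₁) :
    ‖tl tor w K (mo s)‖ ≤ R ^ D₀ * Real.exp (3 * (D₁ * R) - (K - D₀)) := by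
  rw [tl_mo, norm_mul]
  refine mul_le_mul (norm_ad_le tor hR1 hR h0) ?_ (norm_nonneg _) (by positivity)
  refine (exp_tail _ _).trans (Real.exp_le_exp.2 ?_)
  have h2 := norm_fr_le tor (by linarith) hR h1
  have h3 : ((K : ℝ) - D₀) ≤ ((K - da tor s : ℕ) : ℝ) := by
    have h3 : (K : ℝ) ≤ ((K - da tor s : ℕ) : ℝ) + da tor s := by
      have : K ≤ K - da tor s + da tor s := by omega
      exact_mod_cast this
    have h4 : (da tor s : ℝ) ≤ D₀ := by exact_mod_cast h0
    linarith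
  linarith

theorem da_sub_le (s : Fin n →₀ ℕ) (i : Fin n) : da tor (s - Finsupp.single i 1) ≤ da tor s := by
  unfold da
  refine Finset.sum_le_sum fun j _ => ?_
  rw [sub_single_apply]
  split_ifs <;> omega

theorem dt_sub_le (s : Fin n →₀ ℕ) (i : Fin n) : dt tor (s - Finsupp.single i 1) ≤ dt tor s := by
  unfold dt
  refine Finset.sum_le_sum fun j _ => ?_
  rw [sub_single_apply]
  split_ifs <;> omega

/-- bound for a functional on derivatives of monomials -/
theorem norm_phi_W_le {k : ℕ} (v : Fin k → Fin n → ℂ) {V : ℝ} (hV0 : 0 ≤ V) (hV : ∀ j o, ‖v j o‖ ≤ V)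
    (Φ : Rg n →ₗ[ℂ] ℂ) {D₀ D₁ : ℕ} {τ : ℝ}
    (hΦ : ∀ s, da tor s ≤ D₀ → dt tor s ≤ D₁ → ‖Φ (mo s)‖ ≤ τ) (l : List (Fin k)) :
    ∀ s, da tor s ≤ D₀ → dt tor s ≤ D₁ →
      ‖Φ (W tor v l (mo s))‖ ≤ (V * (D₀ + D₁)) ^ l.length * τ := by
  induction l with
  | nil =>
    intro s h0 h1
    simpa [W_nil] using hΦ s h0 h1
  | cons j l ih =>
    intro s h0 h1
    have hτ : 0 ≤ τ := (norm_nonneg _).trans (hΦ s h0 h1)
    have hT : 0 ≤ (V * (D₀ + D₁)) ^ l.length * τ := by positivity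
    rw [W_cons, dr_mo, map_add, map_smul, map_sum, map_add, map_smul, map_sum]
    refine (norm_add_le _ _).trans ?_
    rw [norm_smul, List.length_cons, pow_succ]
    have h2 := norm_fr_le tor hV0 (hV j) h1
    have h3 : ‖∑ i, Φ (W tor v l ((if tor i then 0 else (s i : ℂ) * v j i) • mo (s - Finsupp.single i 1)))‖ ≤
        D₀ * V * ((V * (D₀ + D₁)) ^ l.length * τ) := by
      calc ‖∑ i, Φ (W tor v l ((if tor i then 0 else (s i : ℂ) * v j i) • mo (s - Finsupp.single i 1)))‖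
          ≤ ∑ i, ‖Φ (W tor v l ((if tor i then 0 else (s i : ℂ) * v j i) • mo (s - Finsupp.single i 1)))‖ :=
            norm_sum_le _ _
        _ ≤ ∑ i, ((if tor i then 0 else s i : ℕ) : ℝ) * V * ((V * (D₀ + D₁)) ^ l.length * τ) := by
            refine Finset.sum_le_sum fun i _ => ?_
            rw [map_smul, map_smul, norm_smul]
            refine mul_le_mul ?_ (ih _ ((da_sub_le tor s i).trans h0) ((dt_sub_le tor s i).trans h1))
              (norm_nonneg _) (by positivity)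
            split_ifs
            · simp
            · rw [norm_mul, Complex.norm_natCast]
              exact mul_le_mul_of_nonneg_left (hV j i) (Nat.cast_nonneg _)
        _ = da tor s * V * ((V * (D₀ + D₁)) ^ l.length * τ) := by
            rw [← Finset.sum_mul, ← Finset.sum_mul, ← Nat.cast_sum]; rfl
        _ ≤ D₀ * V * ((V * (D₀ + D₁)) ^ l.length * τ) := by
            have : (da tor s : ℝ) ≤ D₀ := by exact_mod_cast h0
            gcongr
    calc ‖fr tor s (v j)‖ * ‖Φ (W tor v l (mo s))‖ +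
          ‖∑ i, Φ (W tor v l ((if tor i then 0 else (s i : ℂ) * v j i) • mo (s - Finsupp.single i 1)))‖
        ≤ (D₁ * V) * ((V * (D₀ + D₁)) ^ l.length * τ) + D₀ * V * ((V * (D₀ + D₁)) ^ l.length * τ) := by
          refine add_le_add (mul_le_mul h2 (ih s h0 h1) (norm_nonneg _) (by positivity)) h3
      _ = (V * (D₀ + D₁)) ^ l.length * (V * (D₀ + D₁)) * τ := by ring

/-- **Small jets at the neutral element give small values at `exp w`.** -/
theorem small_value {k r : ℕ} (v : Fin k → Fin n → ℂ) (b : Fin r → Fin k → ℂ) {V B : ℝ} (hV0 : 0 ≤ V)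
    (hB : ∀ a, ∑ j, ‖b a j‖ ≤ B) (hB1 : 1 ≤ B)
    (hVw : ∀ a o, ‖(∑ j, b a j • v j) o‖ ≤ V)
    {D₀ D₁ : ℕ} {ι : Type*} [Fintype ι] (ss : ι → Fin n →₀ ℕ) (hp : ∀ x, da tor (ss x) ≤ D₀)
    (hq : ∀ x, dt tor (ss x) ≤ D₁) (c : ι → ℂ) {X : ℝ} (hc : ∀ x, ‖c x‖ ≤ X) {K K' : ℕ} (hK : 0 < K')
    {ε : ℝ} (hε : ∀ l : List (Fin k), l.length < K' → ‖ev tor 0 (W tor v l (∑ x, c x • mo (ss x)))‖ ≤ ε)
    (a : Fin k → ℂ) {R : ℝ} (hR1 : 1 ≤ R) (hR : ∀ o, ‖(∑ j, a j • v j) o‖ ≤ R)
    (s : List (Fin r)) (hs : K + s.length ≤ K') :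
    ‖ev tor (∑ j, a j • v j) (W tor (fun a => ∑ j, b a j • v j) s (∑ x, c x • mo (ss x)))‖ ≤
      Real.exp (∑ j, ‖a j‖) * (B ^ s.length * ε) + Fintype.card ι * X *
        ((V * (D₀ + D₁)) ^ s.length * (R ^ D₀ * Real.exp (3 * (D₁ * R) - (K - D₀)))) := by
  set w := ∑ j, a j • v j with hw
  set P := ∑ x, c x • (mo (ss x) : Rg n) with hP
  set ws : Fin r → Fin n → ℂ := fun a => ∑ j, b a j • v j with hws
  have hε0 : 0 ≤ ε := (norm_nonneg _).trans (hε [] (by simpa using hK))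
  have hB0 : 0 ≤ B := by linarith
  have h1 : ev tor w (W tor ws s P) = tl tor w K (W tor ws s P) +
      ∑ k ∈ Finset.range K, ((k.factorial : ℂ)⁻¹) * ev tor 0 (it tor w k (W tor ws s P)) := by
    rw [tl_apply]; ring
  rw [h1, add_comm]
  refine (norm_add_le _ _).trans (add_le_add ?_ ?_)
  · refine (norm_sum_le _ _).trans ?_
    calc ∑ k ∈ Finset.range K, ‖((k.factorial : ℂ)⁻¹) * ev tor 0 (it tor w k (W tor ws s P))‖
          ≤ ∑ k ∈ Finset.range K, (∑ j, ‖a j‖) ^ k / (k.factorial : ℝ) * (B ^ s.length * ε) := by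
            refine Finset.sum_le_sum fun m hm => ?_
            rw [norm_mul, norm_inv, Complex.norm_natCast, div_mul_eq_mul_div, inv_mul_eq_div]
            refine div_le_div_of_nonneg_right ?_ (by positivity)
            refine iter_small tor v a (by positivity) m _ fun l hl => ?_
            refine word_small tor v b hB (el tor 0) hε0 s m P (fun l' hl' => ?_) l hl
            refine hε l' ?_
            have := Finset.mem_range.1 hm
            omega
        _ = (∑ k ∈ Finset.range K, (∑ j, ‖a j‖) ^ k / (k.factorial : ℝ)) * (B ^ s.length * ε) := by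
            rw [Finset.sum_mul]
        _ ≤ Real.exp (∑ j, ‖a j‖) * (B ^ s.length * ε) :=
            mul_le_mul_of_nonneg_right (Real.sum_le_exp_of_nonneg
              (Finset.sum_nonneg fun _ _ => norm_nonneg _) _) (by positivity)
  · rw [hP, map_sum, map_sum]
    refine (norm_sum_le _ _).trans ?_
    set τ := R ^ D₀ * Real.exp (3 * (D₁ * R) - (K - D₀)) with hτ
    have : ∀ x ∈ Finset.univ, ‖tl tor w K (W tor ws s (c x • mo (ss x)))‖ ≤
        X * ((V * (D₀ + D₁)) ^ s.length * τ) := fun x _ => by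
      rw [map_smul, map_smul, norm_smul]
      refine mul_le_mul (hc x) ?_ (norm_nonneg _) ((norm_nonneg _).trans (hc x))
      exact norm_phi_W_le tor ws hV0 hVw _ (fun s h0 h1 => norm_tl_mo_le tor hR1 hR K h0 h1) s _ (hp x) (hq x)
    refine (Finset.sum_le_card_nsmul _ _ _ this).trans (le_of_eq ?_)
    rw [Finset.card_univ, nsmul_eq_mul, mul_assoc]

end

end Pool.Agent.Helper50.TrsE
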